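import Mathlib

/-!
# Limit profiles of trees (MP_b90d6a_co), helper690 after a proof of helper708: basic facts
-/

set_option autoImplicit false
set_option linter.all false

namespace Run7.h690.TP

open Finset
open scoped Classical

section tree

variable {V : Type} {T : SimpleGraph V} (hT : T.IsTree)
include hT

theorem mem_of_path {v x y : V} (hxy : T.Adj x y)
    (hd : T.dist v x = T.dist v y + 1) (p : T.Walk x v) (hp : p.IsPath) : y ∈ p.support := by
  obtain ⟨q, hq⟩ := hT.connected.exists_walk_length_eq_dist y v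
  have h1 : (SimpleGraph.Walk.cons hxy q).IsPath := by
    apply SimpleGraph.Walk.isPath_of_length_eq_dist
    rw [SimpleGraph.Walk.length_cons, hq, SimpleGraph.dist_comm (u := y), SimpleGraph.dist_comm (u := x), hd]
  have h2 := (hT.isAcyclic.subsingleton_path x v).elim ⟨p, hp⟩ ⟨_, h1⟩
  have h3 : p = SimpleGraph.Walk.cons hxy q := congrArg Subtype.val h2
  rw [h3]
  simp

theorem par_unique {v x y y' : V} (h : T.Adj x y) (hd : T.dist v x = T.dist v y + 1)
    (h' : T.Adj x y') (hd' : T.dist v x = T.dist v y' + 1) : y = y' := by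
  obtain ⟨q, hq, _⟩ := hT.connected.exists_path_of_dist x v
  have a := hT.isAcyclic.eq_snd_of_adj_start hq h (mem_of_path hT h hd q hq)
  have b := hT.isAcyclic.eq_snd_of_adj_start hq h' (mem_of_path hT h' hd' q hq)
  rw [a, b]

theorem exists_par {v x : V} (hx : x ≠ v) : ∃ y, T.Adj x y ∧ T.dist v x = T.dist v y + 1 := by
  obtain ⟨q, hq⟩ := hT.connected.exists_walk_length_eq_dist x v
  cases q with
  | nil => exact absurd rfl hx
  | @cons _ y _ h r =>
    refine ⟨y, h, ?_⟩
    rw [SimpleGraph.Walk.length_cons] at hq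
    rcases hT.dist_eq_dist_add_one_of_adj v h with h1 | h1
    · exact h1
    · exfalso
      have h2 := SimpleGraph.dist_le r
      rw [SimpleGraph.dist_comm] at h2 hq
      omega

omit hT in
/-- the neighbour of `x` in the direction of `v` -/
noncomputable def par (T : SimpleGraph V) (v x : V) : V :=
  if h : ∃ y, T.Adj x y ∧ T.dist v x = T.dist v y + 1 then h.choose else x

theorem par_spec {v x : V} (hx : x ≠ v) :
    T.Adj x (par T v x) ∧ T.dist v x = T.dist v (par T v x) + 1 := by
  have h := exists_par hT hx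
  rw [par, dif_pos h]
  exact h.choose_spec

theorem par_eq {v x y : V} (h : T.Adj x y) (hd : T.dist v x = T.dist v y + 1) : par T v x = y := by
  have hx : x ≠ v := by
    rintro rfl
    rw [SimpleGraph.dist_self] at hd
    omega
  obtain ⟨h1, h2⟩ := par_spec hT hx
  exact par_unique hT h1 h2 h hd

theorem par_cases (v : V) {x y : V} (h : T.Adj x y) : par T v x = y ∨ par T v y = x := by
  rcases hT.dist_eq_dist_add_one_of_adj v h with h1 | h1
  · exact Or.inl (par_eq hT h h1)
  · exact Or.inr (par_eq hT h.symm h1)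

theorem par_mem {K : Set V} (hK : (T.induce K).Connected) {v x : V} (hv : v ∈ K) (hx : x ∈ K)
    (hxv : x ≠ v) : par T v x ∈ K := by
  obtain ⟨q, hq, _⟩ := hK.exists_path_of_dist ⟨x, hx⟩ ⟨v, hv⟩
  obtain ⟨h1, h2⟩ := par_spec hT hxv
  have h3 : par T v x ∈ (q.map (SimpleGraph.Embedding.induce (G := T) K).toHom).support :=
    mem_of_path hT h1 h2 (q.map (SimpleGraph.Embedding.induce (G := T) K).toHom)
      (hq.map (SimpleGraph.Embedding.induce (G := T) K).injective)
  rw [SimpleGraph.Walk.support_map, List.mem_map] at h3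
  obtain ⟨z, _, hz⟩ := h3
  rw [← hz]
  exact z.2

theorem no_tri {x y z : V} (h1 : T.Adj x y) (h2 : T.Adj x z) (h3 : T.Adj y z) : False := by
  have a := hT.dist_ne_of_adj x h3
  rw [SimpleGraph.dist_eq_one_iff_adj.2 h1, SimpleGraph.dist_eq_one_iff_adj.2 h2] at a
  exact a rfl

end tree

/-- closed under the parent function -/
def Cl {V : Type} (T : SimpleGraph V) (v : V) (K : Finset V) : Prop :=
  v ∈ K ∧ ∀ x ∈ K, x ≠ v → par T v x ∈ K

/-- the neighbours -/
noncomputable def nb {V : Type} [Fintype V] (T : SimpleGraph V) (x : V) : Finset V :=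
  univ.filter fun y => T.Adj x y

/-- the degree -/
noncomputable def dg {V : Type} [Fintype V] (T : SimpleGraph V) (x : V) : ℕ := (nb T x).card

theorem mem_nb {V : Type} [Fintype V] {T : SimpleGraph V} {x y : V} : y ∈ nb T x ↔ T.Adj x y := by
  simp [nb]

section tree

variable {V : Type} [Fintype V] {T : SimpleGraph V} (hT : T.IsTree)
include hT

omit [Fintype V] in
theorem cl_of_connected {K : Finset V} (hK : (T.induce (K : Set V)).Connected) {v : V} (hv : v ∈ K) :
    Cl T v K :=
  ⟨hv, fun x hx hxv => by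
    have := par_mem hT hK (v := v) (x := x) (by exact_mod_cast hv) (by exact_mod_cast hx) hxv
    exact_mod_cast this⟩

omit [Fintype V] in
theorem removal {v : V} {S K : Finset V} (hS : Cl T v S) (hK : Cl T v K) (hSK : S ⊆ K) (hne : S ≠ K) :
    ∃ x ∈ K, x ∉ S ∧ x ≠ v ∧ Cl T v (K.erase x) ∧ S ⊆ K.erase x ∧ par T v x ∈ K.erase x := by
  have h1 : (K \ S).Nonempty := by
    rw [nonempty_iff_ne_empty]
    intro h
    rw [sdiff_eq_empty_iff_subset] at h
    exact hne (Finset.Subset.antisymm hSK h)
  obtain ⟨x, hx, hmax⟩ := exists_max_image (K \ S) (fun x => T.dist v x) h1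
  rw [mem_sdiff] at hx
  have hxv : x ≠ v := by
    rintro rfl
    exact hx.2 hS.1
  refine ⟨x, hx.1, hx.2, hxv, ⟨?_, ?_⟩, ?_, ?_⟩
  · rw [mem_erase]
    exact ⟨hxv.symm, hK.1⟩
  · intro z hz hzv
    rw [mem_erase] at hz ⊢
    refine ⟨?_, hK.2 z hz.2 hzv⟩
    intro he
    have h2 := (par_spec hT hzv).2
    rw [he] at h2
    by_cases hzS : z ∈ S
    · have := hS.2 z hzS hzv
      rw [he] at this
      exact hx.2 this
    · have := hmax z (mem_sdiff.2 ⟨hz.2, hzS⟩)
      omega
  · intro z hz
    rw [mem_erase]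
    exact ⟨fun h => hx.2 (h ▸ hz), hSK hz⟩
  · rw [mem_erase]
    exact ⟨((par_spec hT hxv).1.ne).symm, hK.2 x hx.1 hxv⟩

omit hT in
/-- closed sets which contain `S`, with `j` further elements, all degrees at most `d` -/
noncomputable def Fam (T : SimpleGraph V) (v : V) (d : ℕ) (S : Finset V) (j : ℕ) :
    Finset (Finset V) :=
  univ.filter fun K => Cl T v K ∧ S ⊆ K ∧ K.card = S.card + j ∧ ∀ x ∈ K, dg T x ≤ d

omit hT in
theorem mem_Fam {v : V} {d : ℕ} {S K : Finset V} {j : ℕ} :
    K ∈ Fam T v d S j ↔ Cl T v K ∧ S ⊆ K ∧ K.card = S.card + j ∧ ∀ x ∈ K, dg T x ≤ d := by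
  simp [Fam]

/-- extensions of a family by a neighbour of a vertex of degree at most `e` -/
noncomputable def ext (T : SimpleGraph V) (e : ℕ) (A : Finset (Finset V)) : Finset (Finset V) :=
  A.biUnion fun K => (K.filter fun w => dg T w ≤ e).biUnion fun w => (nb T w).image fun u => insert u K

omit hT in
theorem ext_card {e k : ℕ} {A : Finset (Finset V)} (hA : ∀ K ∈ A, K.card ≤ k) :
    (ext T e A).card ≤ A.card * (k * e) := by
  rw [ext]
  refine card_biUnion_le_card_mul _ _ _ fun K hK => ?_
  refine (card_biUnion_le_card_mul _ _ e fun w hw => ?_).trans ?_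
  · exact card_image_le.trans (mem_filter.1 hw).2
  · exact Nat.mul_le_mul_right _ ((card_filter_le _ _).trans (hA K hK))

omit hT in
theorem mem_ext {e : ℕ} {A : Finset (Finset V)} {K : Finset V} {x w : V} (hx : x ∈ K)
    (h1 : K.erase x ∈ A) (hw : w ∈ K.erase x) (hw2 : dg T w ≤ e) (ha : T.Adj w x) : K ∈ ext T e A := by
  rw [ext, mem_biUnion]
  refine ⟨K.erase x, h1, ?_⟩
  rw [mem_biUnion]
  refine ⟨w, mem_filter.2 ⟨hw, hw2⟩, ?_⟩
  rw [mem_image]
  exact ⟨x, mem_nb.2 ha, insert_erase hx⟩

theorem Fam_card {v : V} {d k : ℕ} {S : Finset V} (hS : Cl T v S) (j : ℕ) (hj : S.card + j ≤ k) :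
    (Fam T v d S j).card ≤ (k * d) ^ j := by
  induction j with
  | zero =>
    rw [pow_zero]
    apply card_le_one.2
    intro K hK K' hK'
    rw [mem_Fam] at hK hK'
    rw [← eq_of_subset_of_card_le hK.2.1 (by omega), ← eq_of_subset_of_card_le hK'.2.1 (by omega)]
  | succ j ih =>
    have h1 : Fam T v d S (j + 1) ⊆ ext T d (Fam T v d S j) := by
      intro K hK
      rw [mem_Fam] at hK
      obtain ⟨a1, a2, a3, a4⟩ := hK
      obtain ⟨x, b1, b2, b3, b4, b5, b6⟩ := removal hT hS a1 a2 (by rintro rfl; omega)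
      refine mem_ext b1 ?_ b6 (a4 _ (mem_of_mem_erase b6)) (par_spec hT b3).1.symm
      rw [mem_Fam]
      refine ⟨b4, b5, ?_, fun z hz => a4 z (mem_of_mem_erase hz)⟩
      rw [card_erase_of_mem b1, a3]
      omega
    refine (card_le_card h1).trans ((ext_card (k := k) fun K hK => ?_).trans ?_)
    · rw [mem_Fam] at hK
      omega
    · rw [pow_succ]
      exact Nat.mul_le_mul_right _ (ih (by omega))

/-- the members of `Fam` with `S = {v}` which have an inner vertex of degree at most `e` -/
noncomputable def Gam (T : SimpleGraph V) (v : V) (d e : ℕ) (j : ℕ) : Finset (Finset V) :=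
  (Fam T v d {v} j).filter fun K => ∃ w ∈ K, w ≠ v ∧ dg T w ≤ e ∧ ∃ u ∈ K, u ≠ v ∧ par T v u = w

theorem cl_singleton (v : V) : Cl T v {v} :=
  ⟨mem_singleton_self v, fun x hx hxv => absurd (mem_singleton.1 hx) hxv⟩

theorem Gam_card {v : V} {d e k : ℕ} (j : ℕ) (hj : 1 + j ≤ k) :
    (Gam T v d e j).card * d ≤ j * (k * d) ^ j * e := by
  induction j with
  | zero =>
    have : Gam T v d e 0 = ∅ := by
      rw [Gam, filter_eq_empty_iff]
      intro K hK
      rw [mem_Fam, card_singleton] at hK
      rintro ⟨w, hw, hwv, -⟩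
      have := eq_of_subset_of_card_le hK.2.1 (by rw [card_singleton]; omega)
      rw [← this, mem_singleton] at hw
      exact hwv hw
    rw [this]
    simp
  | succ j ih =>
    have h1 : Gam T v d e (j + 1) ⊆ ext T d (Gam T v d e j) ∪ ext T e (Fam T v d {v} j) := by
      intro K hK
      rw [Gam, mem_filter, mem_Fam, card_singleton] at hK
      obtain ⟨⟨a1, a2, a3, a4⟩, w, hw, hwv, hwe, u, hu, huv, hpar⟩ := hK
      obtain ⟨x, b1, b2, b3, b4, b5, b6⟩ := removal hT (cl_singleton hT v) a1 a2 (by
        intro h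
        rw [← h, card_singleton] at a3
        omega)
      have hF : K.erase x ∈ Fam T v d {v} j := by
        rw [mem_Fam, card_singleton]
        refine ⟨b4, b5, ?_, fun z hz => a4 z (mem_of_mem_erase hz)⟩
        rw [card_erase_of_mem b1, a3]
        omega
      rw [mem_union]
      by_cases hux : u = x
      · right
        subst hux
        rw [hpar] at b6
        have := (par_spec hT huv).1.symm
        rw [hpar] at this
        exact mem_ext b1 hF b6 hwe this
      · left
        have hu' : u ∈ K.erase x := mem_erase.2 ⟨hux, hu⟩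
        have hw' : w ∈ K.erase x := by
          rw [← hpar]
          exact b4.2 u hu' huv
        refine mem_ext b1 ?_ b6 (a4 _ (mem_of_mem_erase b6)) (par_spec hT b3).1.symm
        rw [Gam, mem_filter]
        exact ⟨hF, w, hw', hwv, hwe, u, hu', huv, hpar⟩
    have h2 : (Gam T v d e (j + 1)).card ≤ (Gam T v d e j).card * (k * d) +
        (k * d) ^ j * (k * e) := by
      refine (card_le_card h1).trans ((card_union_le _ _).trans (Nat.add_le_add ?_ ?_))
      · refine ext_card fun K hK => ?_
        rw [Gam, mem_filter, mem_Fam, card_singleton] at hK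
        omega
      · refine (ext_card (k := k) fun K hK => ?_).trans (Nat.mul_le_mul_right _
          (Fam_card hT (cl_singleton hT v) j (by rw [card_singleton]; omega)))
        rw [mem_Fam, card_singleton] at hK
        omega
    calc (Gam T v d e (j + 1)).card * d ≤ ((Gam T v d e j).card * (k * d) +
          (k * d) ^ j * (k * e)) * d := Nat.mul_le_mul_right _ h2
      _ = ((Gam T v d e j).card * d) * (k * d) + (k * d) ^ (j + 1) * e := by ring
      _ ≤ (j * (k * d) ^ j * e) * (k * d) + (k * d) ^ (j + 1) * e :=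
          Nat.add_le_add_right (Nat.mul_le_mul_right _ (ih (by omega))) _
      _ = (j + 1) * (k * d) ^ (j + 1) * e := by ring

end tree

end Run7.h690.TP
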