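import Pool.Agent.Run7.h690.TP.Main

/-!
# Limit profiles of trees (MP_b90d6a_co): all subtrees which are not stars
-/

set_option autoImplicit false
set_option linter.all false

namespace Run7.h690.TP

open Finset
open scoped Classical

section tree

variable {V : Type} [Fintype V] {T : SimpleGraph V} (hT : T.IsTree)
include hT

/-- class 1 -/
theorem class1 {k D : ℕ} (hk : 1 ≤ k) :
    ((conn T k).filter fun K => (∀ x ∈ K, dg T x ≤ D) ∧ ∃ x ∈ K, ∃ U ∈ paths T k, x ∈ U).card ≤
      (paths T k).card * k * (k * D) ^ (k - 1) := by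
  have h1 : ((conn T k).filter fun K => (∀ x ∈ K, dg T x ≤ D) ∧ ∃ x ∈ K, ∃ U ∈ paths T k, x ∈ U) ⊆
      (univ.filter fun x => ∃ U ∈ paths T k, x ∈ U).biUnion fun x => Fam T x D {x} (k - 1) := by
    intro K hK
    rw [mem_filter, conn, mem_filter] at hK
    obtain ⟨⟨-, a1, a2⟩, a3, x, a4, a5⟩ := hK
    rw [mem_biUnion]
    refine ⟨x, by rw [mem_filter]; exact ⟨mem_univ _, a5⟩, ?_⟩
    rw [mem_Fam, card_singleton]
    exact ⟨cl_of_connected hT a2 a4, singleton_subset_iff.2 a4, by omega, a3⟩
  refine (card_le_card h1).trans ((card_biUnion_le_card_mul _ _ ((k * D) ^ (k - 1)) fun x _ => ?_).trans ?_)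
  · exact Fam_card hT (cl_singleton hT x) _ (by rw [card_singleton]; omega)
  · exact Nat.mul_le_mul_right _ (PE_card hT)

/-- class 2 -/
theorem class2 {k D : ℕ} (hk : 1 ≤ k) :
    ((conn T k).filter fun K => ∀ x ∈ K, dg T x ≤ D).card ≤ Fintype.card V * (k * D) ^ (k - 1) := by
  have h1 : ((conn T k).filter fun K => ∀ x ∈ K, dg T x ≤ D) ⊆
      (univ : Finset V).biUnion fun x => Fam T x D {x} (k - 1) := by
    intro K hK
    rw [mem_filter, conn, mem_filter] at hK
    obtain ⟨⟨-, a1, a2⟩, a3⟩ := hK
    obtain ⟨x, a4⟩ : K.Nonempty := by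
      rw [← card_pos]; omega
    rw [mem_biUnion]
    refine ⟨x, mem_univ _, ?_⟩
    rw [mem_Fam, card_singleton]
    exact ⟨cl_of_connected hT a2 a4, singleton_subset_iff.2 a4, by omega, a3⟩
  refine (card_le_card h1).trans ((card_biUnion_le_card_mul _ _ ((k * D) ^ (k - 1)) fun x _ => ?_).trans ?_)
  · exact Fam_card hT (cl_singleton hT x) _ (by rw [card_singleton]; omega)
  · rw [card_univ]

/-- class 3, second part, at the vertex `v` -/
noncomputable def Bam (T : SimpleGraph V) (v : V) (m k : ℕ) : Finset (Finset V) :=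
  ((nb T v).filter fun w => dg T v < m * dg T w ∧ dg T w ≤ dg T v).biUnion fun w =>
    Fam T v (dg T v) {v, w} (k - 2)

theorem cover3 {k D m : ℕ} (hk : 4 ≤ k) (hm : 0 < m) {K : Finset V} (hK : K ∈ nonst T k)
    (hD : ¬ ∀ x ∈ K, dg T x ≤ D) :
    ∃ v, D < dg T v ∧ (K ∈ Gam T v (dg T v) (dg T v / m) (k - 1) ∨ K ∈ Bam T v m k) := by
  rw [nonst, mem_filter, conn, mem_filter] at hK
  obtain ⟨⟨-, a1, a2⟩, a3⟩ := hK
  push Not at hD
  obtain ⟨x0, hx0, hx0D⟩ := hD
  obtain ⟨v, hv, hmax⟩ := exists_max_image K (dg T) ⟨x0, hx0⟩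
  refine ⟨v, lt_of_lt_of_le hx0D (hmax x0 hx0), ?_⟩
  have hcl := cl_of_connected hT a2 hv
  -- a vertex at distance two
  obtain ⟨u, hu, hu2⟩ : ∃ u ∈ K, 2 ≤ T.dist v u := by
    by_contra hcon
    push Not at hcon
    apply a3
    refine ⟨v, hv, fun x hx hxv => ?_⟩
    rw [← SimpleGraph.dist_eq_one_iff_adj]
    have h1 := hcon x hx
    have h2 : T.dist v x ≠ 0 := by
      rw [Ne, hT.connected.dist_eq_zero_iff]
      exact hxv.symm
    omega
  obtain ⟨u', hu', hmin⟩ := exists_min_image (K.filter fun u => 2 ≤ T.dist v u) (fun u => T.dist v u)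
    ⟨u, mem_filter.2 ⟨hu, hu2⟩⟩
  rw [mem_filter] at hu'
  have hu'v : u' ≠ v := by
    rintro rfl
    rw [SimpleGraph.dist_self] at hu'
    omega
  obtain ⟨hw1, hw2⟩ := par_spec hT hu'v
  have hwK := hcl.2 u' hu'.1 hu'v
  set w := par T v u' with hw
  have hdw : T.dist v w = 1 := by
    by_contra hne
    have := hmin w (mem_filter.2 ⟨hwK, by omega⟩)
    omega
  have hvw : T.Adj v w := SimpleGraph.dist_eq_one_iff_adj.1 hdw
  by_cases hdeg : dg T w ≤ dg T v / m
  · left
    rw [Gam, mem_filter, mem_Fam, card_singleton]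
    exact ⟨⟨hcl, singleton_subset_iff.2 hv, by omega, hmax⟩, w, hwK, hvw.ne', hdeg, u', hu'.1, hu'v, rfl⟩
  · right
    rw [Bam, mem_biUnion]
    refine ⟨w, ?_, ?_⟩
    · rw [mem_filter]
      refine ⟨mem_nb.2 hvw, ?_, hmax w hwK⟩
      rw [not_le, Nat.div_lt_iff_lt_mul hm] at hdeg
      rw [mul_comm]
      exact hdeg
    · rw [mem_Fam, card_pair hvw.ne]
      refine ⟨hcl, ?_, by omega, hmax⟩
      intro z hz
      rw [mem_insert, mem_singleton] at hz
      rcases hz with hz | hz <;> rw [hz]
      · exact hv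
      · exact hwK

theorem Gam_bound {k m : ℕ} (hk : 1 ≤ k) (v : V) (hd : 0 < dg T v) :
    m * (Gam T v (dg T v) (dg T v / m) (k - 1)).card ≤ k ^ k * dg T v ^ (k - 1) := by
  have h1 := Gam_card hT (v := v) (d := dg T v) (e := dg T v / m) (k := k) (k - 1) (by omega)
  have h2 : m * (Gam T v (dg T v) (dg T v / m) (k - 1)).card * dg T v ≤
      (k ^ k * dg T v ^ (k - 1)) * dg T v := by
    calc m * (Gam T v (dg T v) (dg T v / m) (k - 1)).card * dg T v =
          m * ((Gam T v (dg T v) (dg T v / m) (k - 1)).card * dg T v) := by ring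
      _ ≤ m * ((k - 1) * (k * dg T v) ^ (k - 1) * (dg T v / m)) := Nat.mul_le_mul_left _ h1
      _ = (k - 1) * (k * dg T v) ^ (k - 1) * (dg T v / m * m) := by ring
      _ ≤ k * (k * dg T v) ^ (k - 1) * dg T v := by
          apply Nat.mul_le_mul
          · exact Nat.mul_le_mul_right _ (by omega)
          · exact Nat.div_mul_le_self _ _
      _ = (k ^ k * dg T v ^ (k - 1)) * dg T v := by
          rw [mul_pow]
          have : k * k ^ (k - 1) = k ^ k := by
            rw [← pow_succ', Nat.sub_add_cancel hk]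
          rw [← this]
          ring
  exact Nat.le_of_mul_le_mul_right h2 hd

theorem Bam_bound {k m : ℕ} (hk : 2 ≤ k) (v : V) :
    (Bam T v m k).card ≤
      ∑ w ∈ (nb T v).filter (fun w => dg T v < m * dg T w ∧ dg T w ≤ dg T v), (k * dg T v) ^ (k - 2) := by
  rw [Bam]
  refine card_biUnion_le.trans (sum_le_sum fun w hw => ?_)
  rw [mem_filter, mem_nb] at hw
  refine Fam_card hT ?_ _ ?_
  · refine ⟨mem_insert_self _ _, ?_⟩
    intro x hx hxv
    rw [mem_insert, mem_singleton] at hx
    have hxw := hx.resolve_left hxv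
    subst hxw
    have : par T v x = v := by
      apply par_eq hT hw.1.symm
      rw [SimpleGraph.dist_self, SimpleGraph.dist_eq_one_iff_adj.2 hw.1]
    rw [this]
    exact mem_insert_self _ _
  · rw [card_pair hw.1.ne]
    omega

/-- charging the edges to the children -/
theorem edge_charge (f : V → ℕ) (g : V → V → ℕ) (hg1 : ∀ v w, g v w ≤ f v) (hg2 : ∀ v w, g v w ≤ f w) :
    ∑ v, ∑ w ∈ nb T v, g v w ≤ 2 * ∑ v, f v := by
  obtain ⟨r⟩ := hT.connected.nonempty
  have h1 : ∀ v, ∑ w ∈ nb T v, g v w ≤
      (∑ w ∈ (nb T v).filter (fun w => par T r v = w), g v w) +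
      ∑ w ∈ (nb T v).filter (fun w => par T r w = v), g v w := by
    intro v
    have h2 : nb T v ⊆ (nb T v).filter (fun w => par T r v = w) ∪
        (nb T v).filter (fun w => par T r w = v) := by
      intro w hw
      rw [mem_union, mem_filter, mem_filter]
      rcases par_cases hT r (mem_nb.1 hw) with h | h
      · exact Or.inl ⟨hw, h⟩
      · exact Or.inr ⟨hw, h⟩
    refine (sum_le_sum_of_subset h2).trans ?_
    rw [← sum_union_inter]
    exact Nat.le_add_right _ _
  have h3 : ∀ v, ∑ w ∈ (nb T v).filter (fun w => par T r v = w), g v w ≤ f v := by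
    intro v
    have h4 : (nb T v).filter (fun w => par T r v = w) ⊆ {par T r v} := by
      intro w hw
      rw [mem_filter] at hw
      rw [mem_singleton]
      exact hw.2.symm
    refine (sum_le_sum_of_subset h4).trans ?_
    rw [sum_singleton]
    exact hg1 _ _
  have h5 : ∑ v, ∑ w ∈ (nb T v).filter (fun w => par T r w = v), g v w ≤ ∑ w, f w := by
    calc ∑ v, ∑ w ∈ (nb T v).filter (fun w => par T r w = v), g v w
        ≤ ∑ v, ∑ w ∈ univ.filter (fun w => par T r w = v), f w :=
          sum_le_sum fun v _ => by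
            refine (sum_le_sum (fun w _ => hg2 v w)).trans (sum_le_sum_of_subset ?_)
            exact filter_subset_filter _ (subset_univ _)
      _ = ∑ w, f w := by
          convert sum_fiberwise univ (par T r) f
  calc ∑ v, ∑ w ∈ nb T v, g v w ≤ ∑ v, ((∑ w ∈ (nb T v).filter (fun w => par T r v = w), g v w) +
      ∑ w ∈ (nb T v).filter (fun w => par T r w = v), g v w) := sum_le_sum fun v _ => h1 v
    _ = ∑ v, (∑ w ∈ (nb T v).filter (fun w => par T r v = w), g v w) +
        ∑ v, ∑ w ∈ (nb T v).filter (fun w => par T r w = v), g v w := sum_add_distrib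
    _ ≤ ∑ v, f v + ∑ w, f w := Nat.add_le_add (sum_le_sum fun v _ => h3 v) h5
    _ = 2 * ∑ v, f v := by ring

/-- the sum over the second parts -/
theorem Bam_sum {k m D : ℕ} (hk : 4 ≤ k) (hm : 0 < m) (hD : 2 * k * m ≤ D) :
    D * ∑ v ∈ univ.filter (fun v => D < dg T v), (Bam T v m k).card ≤
      2 * k ^ (k - 2) * m ^ (k - 1) * (2 ^ (k - 1) * (k - 1).factorial) * (stars T k).card := by
  set f : V → ℕ := fun x => if D < m * dg T x then (m * dg T x) ^ (k - 2) else 0 with hf
  set g : V → V → ℕ := fun v w => if D < dg T v ∧ dg T v < m * dg T w ∧ dg T w ≤ dg T v then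
    dg T v ^ (k - 2) else 0 with hg
  have hg1 : ∀ v w, g v w ≤ f v := by
    intro v w
    simp only [hg, hf]
    split_ifs with h1 h2 h2
    · exact Nat.pow_le_pow_left (Nat.le_mul_of_pos_left _ hm) _
    · exfalso
      apply h2
      exact lt_of_lt_of_le h1.1 (Nat.le_mul_of_pos_left _ hm)
    · exact Nat.zero_le _
    · exact le_rfl
  have hg2 : ∀ v w, g v w ≤ f w := by
    intro v w
    simp only [hg, hf]
    split_ifs with h1 h2 h2
    · exact Nat.pow_le_pow_left h1.2.1.le _
    · exfalso
      apply h2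
      exact h1.1.trans h1.2.1
    · exact Nat.zero_le _
    · exact le_rfl
  have h1 : ∑ v ∈ univ.filter (fun v => D < dg T v), (Bam T v m k).card ≤
      k ^ (k - 2) * ∑ v, ∑ w ∈ nb T v, g v w := by
    rw [mul_sum, sum_filter]
    refine sum_le_sum fun v _ => ?_
    split_ifs with hv
    · refine (Bam_bound hT (by omega) v).trans ?_
      rw [mul_sum, sum_filter]
      refine sum_le_sum fun w _ => ?_
      split_ifs with hw
      · simp only [hg]
        rw [if_pos ⟨hv, hw.1, hw.2⟩, mul_pow]
      · exact Nat.zero_le _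
    · exact Nat.zero_le _
  have h2 := edge_charge hT f g hg1 hg2
  have h3 : D * ∑ v, f v ≤ m ^ (k - 1) * (2 ^ (k - 1) * (k - 1).factorial * (stars T k).card) := by
    have h4 : D * ∑ v, f v ≤ m ^ (k - 1) * ∑ x ∈ univ.filter (fun x => D < m * dg T x), dg T x ^ (k - 1) := by
      rw [mul_sum, mul_sum, sum_filter]
      refine sum_le_sum fun x _ => ?_
      simp only [hf]
      split_ifs with hx
      · rw [← mul_pow]
        calc D * (m * dg T x) ^ (k - 2) ≤ (m * dg T x) * (m * dg T x) ^ (k - 2) :=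
              Nat.mul_le_mul_right _ hx.le
          _ = (m * dg T x) ^ (k - 1) := by
              rw [← pow_succ']
              congr 1
              omega
      · simp
    refine h4.trans (Nat.mul_le_mul_left _ (sum_pow_le hT hk _ ?_))
    intro x hx
    rw [mem_filter] at hx
    by_contra hcon
    push Not at hcon
    have h5 : m * dg T x ≤ m * (2 * k) := Nat.mul_le_mul_left _ hcon.le
    have h6 : m * (2 * k) = 2 * k * m := by ring
    omega
  calc D * ∑ v ∈ univ.filter (fun v => D < dg T v), (Bam T v m k).card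
      ≤ D * (k ^ (k - 2) * (2 * ∑ v, f v)) :=
        Nat.mul_le_mul_left _ (h1.trans (Nat.mul_le_mul_left _ h2))
    _ = 2 * k ^ (k - 2) * (D * ∑ v, f v) := by ring
    _ ≤ 2 * k ^ (k - 2) * (m ^ (k - 1) * (2 ^ (k - 1) * (k - 1).factorial * (stars T k).card)) :=
        Nat.mul_le_mul_left _ h3
    _ = _ := by ring

/-- the sum over the first parts -/
theorem Gam_sum {k m D : ℕ} (hk : 4 ≤ k) (hD : 2 * k ≤ D) :
    m * ∑ v ∈ univ.filter (fun v => D < dg T v), (Gam T v (dg T v) (dg T v / m) (k - 1)).card ≤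
      k ^ k * (2 ^ (k - 1) * (k - 1).factorial) * (stars T k).card := by
  calc m * ∑ v ∈ univ.filter (fun v => D < dg T v), (Gam T v (dg T v) (dg T v / m) (k - 1)).card
      = ∑ v ∈ univ.filter (fun v => D < dg T v), m * (Gam T v (dg T v) (dg T v / m) (k - 1)).card := by
        rw [mul_sum]
    _ ≤ ∑ v ∈ univ.filter (fun v => D < dg T v), k ^ k * dg T v ^ (k - 1) :=
        sum_le_sum fun v hv => Gam_bound hT (by omega) v (by
          rw [mem_filter] at hv
          omega)
    _ = k ^ k * ∑ v ∈ univ.filter (fun v => D < dg T v), dg T v ^ (k - 1) := by rw [mul_sum]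
    _ ≤ k ^ k * (2 ^ (k - 1) * (k - 1).factorial * (stars T k).card) := by
        refine Nat.mul_le_mul_left _ (sum_pow_le hT hk _ ?_)
        intro x hx
        rw [mem_filter] at hx
        omega
    _ = _ := by ring

end tree

/-- **The main inequality.** -/
theorem main (k q : ℕ) (hk : 4 ≤ k) (hq : 0 < q) : ∃ C n₀ : ℕ, ∀ (V : Type) [Fintype V]
    (T : SimpleGraph V), T.IsTree → n₀ ≤ Fintype.card V →
      q * (nonst T k).card ≤ (stars T k).card + C * (paths T k).card := by
  set Ck := 2 ^ (k - 1) * (k - 1).factorial with hCk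
  have hCk0 : 0 < Ck := by positivity
  set m := 3 * q * (k ^ k * Ck) with hm
  have hm0 : 0 < m := by positivity
  set X := 2 * k ^ (k - 2) * m ^ (k - 1) * Ck with hX
  have hX0 : 0 < X := by positivity
  set D := 3 * q * X + 2 * k * m with hD
  set Δ₀ := Ck * (3 * q * (k * 2 ^ (k - 2) * (k * D) ^ (k - 1))) + 2 * k with hΔ₀
  refine ⟨q * (k * (k * D) ^ (k - 1)), k * (Δ₀ + 1) ^ (k - 2) + 1, fun V _ T hT hn => ?_⟩
  -- the three classes
  set N1 := (conn T k).filter fun K => (∀ x ∈ K, dg T x ≤ D) ∧ ∃ x ∈ K, ∃ U ∈ paths T k, x ∈ U with hN1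
  set N2 := if (∃ x, ∀ y, T.dist x y < k - 1) then ((conn T k).filter fun K => ∀ x ∈ K, dg T x ≤ D)
    else ∅ with hN2
  set NA := (univ.filter (fun v => D < dg T v)).biUnion fun v => Gam T v (dg T v) (dg T v / m) (k - 1)
    with hNA
  set NB := (univ.filter (fun v => D < dg T v)).biUnion fun v => Bam T v m k with hNB
  have hcov : nonst T k ⊆ N1 ∪ (N2 ∪ (NA ∪ NB)) := by
    intro K hK
    rw [mem_union, mem_union, mem_union]
    have hK' : K ∈ conn T k := (mem_filter.1 hK).1
    by_cases h1 : ∀ x ∈ K, dg T x ≤ D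
    · by_cases h2 : ∃ x ∈ K, ∃ U ∈ paths T k, x ∈ U
      · left
        rw [hN1, mem_filter]
        exact ⟨hK', h1, h2⟩
      · right; left
        have h3 : ∃ x, ∀ y, T.dist x y < k - 1 := by
          obtain ⟨x, hx⟩ : K.Nonempty := by
            rw [← card_pos]
            have := (mem_filter.1 hK').2.1
            omega
          refine ⟨x, fun y => ?_⟩
          by_contra hcon
          push Not at hcon
          exact h2 ⟨x, hx, far hT (by omega) hcon⟩
        rw [hN2, if_pos h3, mem_filter]
        exact ⟨hK', h1⟩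
    · right; right
      obtain ⟨v, hv, h⟩ := cover3 hT hk hm0 hK h1
      rcases h with h | h
      · left
        rw [hNA, mem_biUnion]
        exact ⟨v, by simp [hv], h⟩
      · right
        rw [hNB, mem_biUnion]
        exact ⟨v, by simp [hv], h⟩
  have hcard : (nonst T k).card ≤ N1.card + (N2.card + (NA.card + NB.card)) := by
    refine (card_le_card hcov).trans ((card_union_le _ _).trans (Nat.add_le_add_left ?_ _))
    refine (card_union_le _ _).trans (Nat.add_le_add_left ?_ _)
    exact card_union_le _ _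
  have b1 : N1.card ≤ (paths T k).card * k * (k * D) ^ (k - 1) := class1 hT (by omega)
  -- class 2
  have b2 : 3 * q * N2.card ≤ (stars T k).card := by
    rw [hN2]
    split_ifs with h3
    · obtain ⟨x, hx⟩ := h3
      obtain ⟨c, -, hc⟩ := exists_max_image (univ : Finset V) (dg T) ⟨x, mem_univ _⟩
      have h4 := card_le_of_radius hT (k := k) (Δ := dg T c) (fun y => hc y (mem_univ _)) hx
      have h5 : Δ₀ < dg T c := by
        by_contra hcon
        push Not at hcon
        have : k * (dg T c + 1) ^ (k - 2) ≤ k * (Δ₀ + 1) ^ (k - 2) :=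
          Nat.mul_le_mul_left _ (Nat.pow_le_pow_left (by omega) _)
        omega
      have h6 := class2 hT (k := k) (D := D) (by omega)
      have h7 : (dg T c).choose (k - 1) ≤ (stars T k).card :=
        (single_le_sum (f := fun c => (dg T c).choose (k - 1)) (fun _ _ => Nat.zero_le _)
          (mem_univ c)).trans (star_card hT (by omega))
      have h8 := pow_le_choose (k := k) (d := dg T c) (by omega) hk
      have h9 : Ck * (3 * q * (((conn T k).filter fun K => ∀ x ∈ K, dg T x ≤ D).card)) ≤
          Ck * (stars T k).card := by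
        calc Ck * (3 * q * (((conn T k).filter fun K => ∀ x ∈ K, dg T x ≤ D).card))
            ≤ Ck * (3 * q * (Fintype.card V * (k * D) ^ (k - 1))) :=
              Nat.mul_le_mul_left _ (Nat.mul_le_mul_left _ h6)
          _ ≤ Ck * (3 * q * ((k * (dg T c + 1) ^ (k - 2)) * (k * D) ^ (k - 1))) :=
              Nat.mul_le_mul_left _ (Nat.mul_le_mul_left _ (Nat.mul_le_mul_right _ h4))
          _ ≤ Ck * (3 * q * ((k * (2 * dg T c) ^ (k - 2)) * (k * D) ^ (k - 1))) := by
              apply Nat.mul_le_mul_left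
              apply Nat.mul_le_mul_left
              apply Nat.mul_le_mul_right
              apply Nat.mul_le_mul_left
              exact Nat.pow_le_pow_left (by omega) _
          _ = (Ck * (3 * q * (k * 2 ^ (k - 2) * (k * D) ^ (k - 1)))) * dg T c ^ (k - 2) := by
              rw [mul_pow 2]
              ring
          _ ≤ dg T c * dg T c ^ (k - 2) := Nat.mul_le_mul_right _ (by omega)
          _ = dg T c ^ (k - 1) := by
              rw [← pow_succ']
              congr 1
              omega
          _ ≤ Ck * (dg T c).choose (k - 1) := h8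
          _ ≤ Ck * (stars T k).card := Nat.mul_le_mul_left _ h7
      exact Nat.le_of_mul_le_mul_left h9 hCk0
    · simp
  -- class 3
  have b3 : 3 * q * NA.card ≤ (stars T k).card := by
    have h1 : NA.card ≤ ∑ v ∈ univ.filter (fun v => D < dg T v),
        (Gam T v (dg T v) (dg T v / m) (k - 1)).card := card_biUnion_le
    have h2 := Gam_sum hT (k := k) (m := m) (D := D) hk (by
      have : 2 * k ≤ 2 * k * m := Nat.le_mul_of_pos_right _ hm0
      omega)
    have h3 : (k ^ k * Ck) * (3 * q * NA.card) ≤ (k ^ k * Ck) * (stars T k).card := by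
      calc (k ^ k * Ck) * (3 * q * NA.card) = m * NA.card := by rw [hm]; ring
        _ ≤ _ := (Nat.mul_le_mul_left _ h1).trans h2
    exact Nat.le_of_mul_le_mul_left h3 (by positivity)
  have b4 : 3 * q * NB.card ≤ (stars T k).card := by
    have h1 : NB.card ≤ ∑ v ∈ univ.filter (fun v => D < dg T v), (Bam T v m k).card := card_biUnion_le
    have h2 := Bam_sum hT (k := k) (m := m) (D := D) hk hm0 (by omega)
    have h3 : X * (3 * q * NB.card) ≤ X * (stars T k).card := by
      calc X * (3 * q * NB.card) = (3 * q * X) * NB.card := by ring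
        _ ≤ D * NB.card := Nat.mul_le_mul_right _ (by omega)
        _ ≤ _ := (Nat.mul_le_mul_left _ h1).trans h2
    exact Nat.le_of_mul_le_mul_left h3 hX0
  have h5 : 3 * (q * (nonst T k).card) ≤ 3 * ((stars T k).card +
      q * (k * (k * D) ^ (k - 1)) * (paths T k).card) := by
    calc 3 * (q * (nonst T k).card) ≤ 3 * (q * (N1.card + (N2.card + (NA.card + NB.card)))) :=
          Nat.mul_le_mul_left _ (Nat.mul_le_mul_left _ hcard)
      _ = 3 * q * N1.card + (3 * q * N2.card + (3 * q * NA.card + 3 * q * NB.card)) := by ring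
      _ ≤ 3 * q * ((paths T k).card * k * (k * D) ^ (k - 1)) +
          ((stars T k).card + ((stars T k).card + (stars T k).card)) :=
          Nat.add_le_add (Nat.mul_le_mul_left _ b1) (Nat.add_le_add b2 (Nat.add_le_add b3 b4))
      _ = _ := by ring
  omega

end Run7.h690.TP
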