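import Pool.Agent.Run7.h690.TP.Ineq

/-!
# Limit profiles of trees (MP_b90d6a_co): connected sets, path graphs, stars
-/

set_option autoImplicit false
set_option linter.all false

namespace Run7.h690.TP

open Finset
open scoped Classical

theorem mem_conn {V : Type} [Fintype V] {T : SimpleGraph V} {k : ℕ} {K : Finset V} :
    K ∈ conn T k ↔ K.card = k ∧ (T.induce (K : Set V)).Connected := by
  rw [conn, mem_filter]
  exact ⟨fun h => h.2, fun h => ⟨mem_univ _, h⟩⟩

theorem mem_paths {V : Type} [Fintype V] {T : SimpleGraph V} {k : ℕ} {K : Finset V} :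
    K ∈ paths T k ↔ Nonempty (T.induce (K : Set V) ≃g SimpleGraph.pathGraph k) := by
  rw [paths, mem_filter]
  exact ⟨fun h => h.2, fun h => ⟨mem_univ _, h⟩⟩

theorem card_split {V : Type} [Fintype V] (T : SimpleGraph V) (k : ℕ) :
    (conn T k).card = (stars T k).card + (nonst T k).card := by
  rw [stars, nonst, Finset.card_filter_add_card_filter_not]

theorem stars_subset {V : Type} [Fintype V] (T : SimpleGraph V) (k : ℕ) : stars T k ⊆ conn T k :=
  filter_subset _ _

section tree

variable {V : Type} {T : SimpleGraph V} (hT : T.IsTree)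
include hT

theorem connected_of_cl {v : V} {K : Finset V} (h : Cl T v K) : (T.induce (K : Set V)).Connected := by
  rw [SimpleGraph.connected_iff_exists_forall_reachable]
  refine ⟨⟨v, by exact_mod_cast h.1⟩, ?_⟩
  have key : ∀ n, ∀ x (hx : x ∈ K), T.dist v x = n →
      (T.induce (K : Set V)).Reachable ⟨v, by exact_mod_cast h.1⟩ ⟨x, by exact_mod_cast hx⟩ := by
    intro n
    induction n with
    | zero =>
      intro x hx hd
      rw [hT.connected.dist_eq_zero_iff] at hd
      subst hd
      exact SimpleGraph.Reachable.refl _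
    | succ n ih =>
      intro x hx hd
      have hxv : x ≠ v := by
        rintro rfl
        rw [SimpleGraph.dist_self] at hd
        omega
      obtain ⟨h1, h2⟩ := par_spec hT hxv
      refine (ih (par T v x) (h.2 x hx hxv) (by omega)).trans ?_
      apply SimpleGraph.Adj.reachable
      exact h1.symm
  rintro ⟨x, hx⟩
  exact key _ x (by exact_mod_cast hx) rfl

theorem exists_conn [Fintype V] {k : ℕ} (hk : 1 ≤ k) (hn : k ≤ Fintype.card V) :
    (conn T k).Nonempty := by
  obtain ⟨v⟩ := hT.connected.nonempty
  have key : ∀ j, j + 1 ≤ Fintype.card V → ∃ K : Finset V, Cl T v K ∧ K.card = Fintype.card V - j := by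
    intro j
    induction j with
    | zero =>
      intro _
      exact ⟨univ, ⟨mem_univ _, fun _ _ _ => mem_univ _⟩, by rw [card_univ]; omega⟩
    | succ j ih =>
      intro hj
      obtain ⟨K, h1, h2⟩ := ih (by omega)
      obtain ⟨x, b1, -, -, b4, -, -⟩ := removal hT (cl_singleton hT v) h1
        (singleton_subset_iff.2 h1.1) (by
          intro he
          rw [← he, card_singleton] at h2
          omega)
      exact ⟨K.erase x, b4, by rw [card_erase_of_mem b1, h2]; omega⟩
  obtain ⟨K, h1, h2⟩ := key (Fintype.card V - k) (by omega)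
  exact ⟨K, by
    rw [conn, mem_filter]
    exact ⟨mem_univ _, by omega, connected_of_cl hT h1⟩⟩

/-- stars are the sets whose induced graph is isomorphic to a star graph -/
theorem mem_stars_iff [Fintype V] {k : ℕ} (c : Fin k) (K : Finset V) :
    K ∈ stars T k ↔ Nonempty (T.induce (K : Set V) ≃g SimpleGraph.starGraph c) := by
  rw [stars, mem_filter, conn, mem_filter]
  constructor
  · rintro ⟨⟨-, h1, -⟩, z, hz, h2⟩
    -- a bijection which maps `c` to `z`
    have e0 : Fin k ≃ K := (Fin.castOrderIso h1.symm).toEquiv.trans K.equivFin.symm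
    set e : Fin k ≃ K := e0.trans (Equiv.swap (e0 c) ⟨z, hz⟩) with he
    have hec : (e c : V) = z := by
      simp [he]
    refine iso_of_fun (fun i => (e i : V)) (Subtype.val_injective.comp e.injective) ?_ ?_
    · intro i j
      rw [SimpleGraph.starGraph_adj]
      have hinj : ∀ i j : Fin k, (e i : V) = e j ↔ i = j := by
        intro i j
        rw [Subtype.coe_inj, e.injective.eq_iff]
      constructor
      · intro h3
        refine ⟨fun h => h3.ne (by rw [h]), ?_⟩
        by_contra hcon
        push Not at hcon
        have h4 : T.Adj z (e i) := h2 _ (e i).2 (by rw [← hec, Ne, hinj]; exact hcon.1)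
        have h5 : T.Adj z (e j) := h2 _ (e j).2 (by rw [← hec, Ne, hinj]; exact hcon.2)
        exact no_tri hT h4 h5 h3
      · rintro ⟨h3, h4 | h4⟩
        · subst h4
          have := h2 (e j) (e j).2 (by rw [← hec, Ne, hinj]; exact h3.symm)
          rw [← hec] at this
          exact this
        · subst h4
          have := h2 (e i) (e i).2 (by rw [← hec, Ne, hinj]; exact h3)
          rw [← hec] at this
          exact this.symm
    · intro x
      constructor
      · intro hx
        exact ⟨e.symm ⟨x, hx⟩, by simp⟩
      · rintro ⟨i, rfl⟩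
        exact (e i).2
  · intro h
    have h1 := card_of_iso h
    rw [Fintype.card_fin] at h1
    obtain ⟨e⟩ := h
    refine ⟨⟨mem_univ _, h1, ?_⟩, ?_⟩
    · rw [e.connected_iff]
      exact SimpleGraph.connected_starGraph c
    · refine ⟨(e.symm c).1, by exact_mod_cast (e.symm c).2, ?_⟩
      intro x hx hxc
      have hx' : x ∈ (K : Set V) := by exact_mod_cast hx
      have h2 : e ⟨x, hx'⟩ ≠ c := by
        intro h3
        apply hxc
        have h4 := congrArg e.symm h3
        rw [RelIso.symm_apply_apply] at h4
        rw [← h4]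
      have h3 : (SimpleGraph.starGraph c).Adj c (e ⟨x, hx'⟩) := by
        rw [SimpleGraph.starGraph_adj]
        exact ⟨h2.symm, Or.inl rfl⟩
      have h4 := e.symm.map_rel_iff.2 h3
      simpa using h4

end tree

theorem isTree_pathGraph {k : ℕ} (hk : 1 ≤ k) : (SimpleGraph.pathGraph k).IsTree := by
  obtain ⟨k, rfl⟩ : ∃ j, k = j + 1 := ⟨k - 1, by omega⟩
  rw [SimpleGraph.isTree_iff_connected_and_card]
  have hc := SimpleGraph.pathGraph_connected k
  refine ⟨hc, ?_⟩
  have h1 := hc.card_vert_le_card_edgeSet_add_one
  have h2 : Nat.card (SimpleGraph.pathGraph (k + 1)).edgeSet ≤ k := by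
    have h3 : Function.Surjective (fun i : Fin k =>
        (⟨s(i.castSucc, i.succ), by
          rw [SimpleGraph.mem_edgeSet, SimpleGraph.pathGraph_adj]
          left
          simp⟩ : (SimpleGraph.pathGraph (k + 1)).edgeSet)) := by
      rintro ⟨e, he⟩
      induction e using Sym2.ind with
      | _ x y =>
        rw [SimpleGraph.mem_edgeSet, SimpleGraph.pathGraph_adj] at he
        rcases he with he | he
        · refine ⟨⟨x.val, by have := y.2; omega⟩, ?_⟩
          apply Subtype.ext
          exact Sym2.eq_iff.2 (Or.inl ⟨Fin.ext rfl, Fin.ext he⟩)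
        · refine ⟨⟨y.val, by have := x.2; omega⟩, ?_⟩
          apply Subtype.ext
          exact Sym2.eq_iff.2 (Or.inr ⟨Fin.ext rfl, Fin.ext he⟩)
    have h4 := Nat.card_le_card_of_surjective _ h3
    rwa [Nat.card_fin] at h4
  rw [Nat.card_fin] at h1 ⊢
  omega

end Run7.h690.TP
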