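import Pool.Agent.Run7.h690.TP.Base

/-!
# Limit profiles of trees (MP_b90d6a_co): the main inequality
-/

set_option autoImplicit false
set_option linter.all false

namespace Run7.h690.TP

open Finset
open scoped Classical

/-- the sets of `k` vertices which induce a connected subgraph -/
noncomputable def conn {V : Type} [Fintype V] (T : SimpleGraph V) (k : ℕ) : Finset (Finset V) :=
  univ.filter fun K => K.card = k ∧ (T.induce (K : Set V)).Connected

/-- `K` is a star -/
def IsSt {V : Type} (T : SimpleGraph V) (K : Finset V) : Prop :=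
  ∃ c ∈ K, ∀ x ∈ K, x ≠ c → T.Adj c x

/-- sets which induce a path with `k` vertices -/
noncomputable def paths {V : Type} [Fintype V] (T : SimpleGraph V) (k : ℕ) : Finset (Finset V) :=
  univ.filter fun U => Nonempty (T.induce (U : Set V) ≃g SimpleGraph.pathGraph k)

noncomputable def stars {V : Type} [Fintype V] (T : SimpleGraph V) (k : ℕ) : Finset (Finset V) :=
  (conn T k).filter (IsSt T)

noncomputable def nonst {V : Type} [Fintype V] (T : SimpleGraph V) (k : ℕ) : Finset (Finset V) :=
  (conn T k).filter fun K => ¬ IsSt T K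

theorem card_of_iso {V W : Type} [Fintype W] {T : SimpleGraph V} {U : Finset V} {G : SimpleGraph W}
    (h : Nonempty (T.induce (U : Set V) ≃g G)) : U.card = Fintype.card W := by
  obtain ⟨e⟩ := h
  have h1 := Fintype.card_congr e.toEquiv
  rw [← h1]
  simp

theorem iso_of_fun {V W : Type} [Fintype W] {T : SimpleGraph V} {G : SimpleGraph W} (f : W → V)
    (hf : Function.Injective f) (h : ∀ i j, T.Adj (f i) (f j) ↔ G.Adj i j) {U : Finset V}
    (hU : ∀ x, x ∈ U ↔ ∃ i, f i = x) :
    Nonempty (T.induce (U : Set V) ≃g G) := by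
  have hmem : ∀ i, f i ∈ (U : Set V) := fun i => by
    have := (hU (f i)).2 ⟨i, rfl⟩
    exact_mod_cast this
  let g : W → (U : Set V) := fun i => ⟨f i, hmem i⟩
  have hg : Function.Bijective g := by
    constructor
    · intro i j hij
      exact hf (congrArg Subtype.val hij)
    · rintro ⟨x, hx⟩
      obtain ⟨i, hi⟩ := (hU x).1 (by exact_mod_cast hx)
      exact ⟨i, Subtype.ext hi⟩
  refine ⟨SimpleGraph.Iso.symm ⟨Equiv.ofBijective g hg, ?_⟩⟩
  intro i j
  exact h i j

section tree

variable {V : Type} [Fintype V] {T : SimpleGraph V} (hT : T.IsTree)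
include hT

theorem star_card {k : ℕ} (hk : 3 ≤ k) : ∑ c, (dg T c).choose (k - 1) ≤ (stars T k).card := by
  have h1 : ∑ c, (dg T c).choose (k - 1) =
      (univ.sigma fun c => (nb T c).powersetCard (k - 1)).card := by
    rw [card_sigma]
    refine sum_congr rfl fun c _ => ?_
    rw [card_powersetCard, dg]
  rw [h1]
  refine card_le_card_of_injOn (fun p => insert p.1 p.2) ?_ ?_
  · rintro ⟨c, A⟩ hp
    rw [mem_coe, mem_sigma, mem_powersetCard] at hp
    obtain ⟨-, hA, hAc⟩ := hp
    have hcA : c ∉ A := fun h => (mem_nb.1 (hA h)).ne rfl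
    have hadj : ∀ x ∈ A, T.Adj c x := fun x hx => mem_nb.1 (hA hx)
    show insert c A ∈ ((stars T k : Finset (Finset V)) : Set (Finset V))
    rw [mem_coe, stars, mem_filter, conn, mem_filter]
    refine ⟨⟨mem_univ _, ?_, ?_⟩, c, mem_insert_self _ _, ?_⟩
    · rw [card_insert_of_notMem hcA, hAc]; omega
    · rw [SimpleGraph.connected_iff_exists_forall_reachable]
      refine ⟨⟨c, by simp⟩, ?_⟩
      rintro ⟨x, hx⟩
      rw [mem_coe, mem_insert] at hx
      rcases hx with hx | hx
      · subst hx
        exact SimpleGraph.Reachable.refl _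
      · apply SimpleGraph.Adj.reachable
        exact hadj x hx
    · intro x hx hxc
      rw [mem_insert] at hx
      exact hadj x (hx.resolve_left hxc)
  · rintro ⟨c, A⟩ hp ⟨c', A'⟩ hp' heq
    rw [mem_coe, mem_sigma, mem_powersetCard] at hp hp'
    obtain ⟨-, hA, hAc⟩ := hp
    obtain ⟨-, hA', hAc'⟩ := hp'
    simp only at heq hA hA' hAc hAc'
    have hcA : c ∉ A := fun h => (mem_nb.1 (hA h)).ne rfl
    have hcA' : c' ∉ A' := fun h => (mem_nb.1 (hA' h)).ne rfl
    have hcc : c = c' := by
      by_contra hne
      have h2 : c' ∈ A := by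
        have : c' ∈ insert c A := by rw [heq]; exact mem_insert_self _ _
        rw [mem_insert] at this
        exact this.resolve_left (Ne.symm hne)
      have h3 : c ∈ A' := by
        have : c ∈ insert c' A' := by rw [← heq]; exact mem_insert_self _ _
        rw [mem_insert] at this
        exact this.resolve_left hne
      obtain ⟨z, hz⟩ : (A.erase c').Nonempty := by
        rw [← card_pos, card_erase_of_mem h2, hAc]
        omega
      rw [mem_erase] at hz
      have h4 : z ∈ A' := by
        have : z ∈ insert c' A' := by rw [← heq]; exact mem_insert_of_mem hz.2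
        rw [mem_insert] at this
        exact this.resolve_left hz.1
      exact no_tri hT (mem_nb.1 (hA h2)) (mem_nb.1 (hA hz.2)) (mem_nb.1 (hA' h4))
    subst hcc
    have : A = A' := by
      rw [← erase_insert hcA, heq, erase_insert hcA']
    rw [this]

/-- a vertex at distance at least `k - 1` of some vertex lies on a path with `k` vertices -/
theorem far {k : ℕ} (hk : 1 ≤ k) {x y : V} (h : k - 1 ≤ T.dist x y) : ∃ U ∈ paths T k, x ∈ U := by
  set L := T.dist x y with hL
  set w : ℕ → V := fun i => (par T x)^[i] y with hw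
  have hd : ∀ i, i ≤ L → T.dist x (w i) = L - i := by
    intro i
    induction i with
    | zero => intro _; rfl
    | succ i ih =>
      intro hi
      have h1 := ih (by omega)
      have h2 : w i ≠ x := by
        intro he
        rw [he, SimpleGraph.dist_self] at h1
        omega
      have h3 := (par_spec hT h2).2
      have h4 : w (i + 1) = par T x (w i) := by
        simp only [hw]
        rw [Function.iterate_succ_apply']
      rw [h4]
      omega
  have ha : ∀ i, i < L → T.Adj (w i) (w (i + 1)) := by
    intro i hi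
    have h1 := hd i hi.le
    have h2 : w i ≠ x := by
      intro he
      rw [he, SimpleGraph.dist_self] at h1
      omega
    have h4 : w (i + 1) = par T x (w i) := by
      simp only [hw]
      rw [Function.iterate_succ_apply']
    rw [h4]
    exact (par_spec hT h2).1
  set f : Fin k → V := fun i => w (L - i.val) with hf
  have hdf : ∀ i : Fin k, T.dist x (f i) = i.val := by
    intro i
    have := i.2
    simp only [hf]
    rw [hd _ (by omega)]
    omega
  have hinj : Function.Injective f := by
    intro i j hij
    have h1 := hdf i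
    rw [hij, hdf j] at h1
    exact Fin.ext h1.symm
  have hadj : ∀ i j : Fin k, i.val + 1 = j.val → T.Adj (f i) (f j) := by
    intro i j hij
    have hj := j.2
    have h1 := ha (L - j.val) (by omega)
    have h2 : L - j.val + 1 = L - i.val := by omega
    rw [h2] at h1
    exact h1.symm
  refine ⟨univ.image f, ?_, ?_⟩
  · rw [paths, mem_filter]
    refine ⟨mem_univ _, iso_of_fun f hinj ?_ (by simp)⟩
    intro i j
    rw [SimpleGraph.pathGraph_adj]
    constructor
    · intro h1
      rcases hT.dist_eq_dist_add_one_of_adj x h1 with h2 | h2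
      · rw [hdf, hdf] at h2
        exact Or.inr h2.symm
      · rw [hdf, hdf] at h2
        exact Or.inl h2.symm
    · rintro (h1 | h1)
      · exact hadj i j h1
      · exact (hadj j i h1).symm
  · rw [mem_image]
    refine ⟨⟨0, by omega⟩, mem_univ _, ?_⟩
    have h1 := hdf ⟨0, by omega⟩
    rw [hT.connected.dist_eq_zero_iff] at h1
    exact h1.symm

/-- the vertices on paths with `k` vertices -/
theorem PE_card {k : ℕ} : (univ.filter fun x => ∃ U ∈ paths T k, x ∈ U).card ≤ (paths T k).card * k := by
  have h1 : (univ.filter fun x => ∃ U ∈ paths T k, x ∈ U) ⊆ (paths T k).biUnion id := by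
    intro x hx
    rw [mem_filter] at hx
    rw [mem_biUnion]
    exact hx.2
  refine (card_le_card h1).trans (card_biUnion_le_card_mul _ _ _ fun U hU => ?_)
  rw [paths, mem_filter] at hU
  rw [id, card_of_iso hU.2, Fintype.card_fin]

/-- the size of a tree of small radius -/
theorem card_le_of_radius {k Δ : ℕ} (hΔ : ∀ y, dg T y ≤ Δ) {x : V} (h : ∀ y, T.dist x y < k - 1) :
    Fintype.card V ≤ k * (Δ + 1) ^ (k - 2) := by
  have hlev : ∀ j, (univ.filter fun y => T.dist x y = j).card ≤ (Δ + 1) ^ j := by
    intro j
    induction j with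
    | zero =>
      rw [pow_zero]
      apply card_le_one.2
      intro a ha b hb
      rw [mem_filter, hT.connected.dist_eq_zero_iff] at ha hb
      rw [← ha.2, hb.2]
    | succ j ih =>
      have h1 : (univ.filter fun y => T.dist x y = j + 1) ⊆
          (univ.filter fun y => T.dist x y = j).biUnion (nb T) := by
        intro y hy
        rw [mem_filter] at hy
        have hyx : y ≠ x := by
          intro he
          rw [he, SimpleGraph.dist_self] at hy
          omega
        obtain ⟨h2, h3⟩ := par_spec hT hyx
        rw [mem_biUnion]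
        refine ⟨par T x y, ?_, mem_nb.2 h2.symm⟩
        rw [mem_filter]
        exact ⟨mem_univ _, by omega⟩
      refine (card_le_card h1).trans ((card_biUnion_le_card_mul _ _ Δ fun y _ => hΔ y).trans ?_)
      rw [pow_succ]
      exact Nat.mul_le_mul ih (by omega)
  have h2 : (univ : Finset V) ⊆ (range (k - 1)).biUnion fun j => univ.filter fun y => T.dist x y = j := by
    intro y _
    rw [mem_biUnion]
    exact ⟨T.dist x y, mem_range.2 (h y), by simp⟩
  rw [← card_univ]
  refine (card_le_card h2).trans ((card_biUnion_le_card_mul _ _ ((Δ + 1) ^ (k - 2)) fun j hj => ?_).trans ?_)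
  · rw [mem_range] at hj
    exact (hlev j).trans (Nat.pow_le_pow_right (by omega) (by omega))
  · rw [card_range]
    exact Nat.mul_le_mul_right _ (by omega)

omit hT in
theorem pow_le_choose {k d : ℕ} (hd : 2 * k ≤ d) (hk : 4 ≤ k) :
    d ^ (k - 1) ≤ 2 ^ (k - 1) * (k - 1).factorial * d.choose (k - 1) := by
  have h1 : d ≤ 2 * (d + 1 - (k - 1)) := by omega
  calc d ^ (k - 1) ≤ (2 * (d + 1 - (k - 1))) ^ (k - 1) := Nat.pow_le_pow_left h1 _
    _ = 2 ^ (k - 1) * (d + 1 - (k - 1)) ^ (k - 1) := mul_pow _ _ _
    _ ≤ 2 ^ (k - 1) * d.descFactorial (k - 1) :=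
        Nat.mul_le_mul_left _ (Nat.pow_sub_le_descFactorial d (k - 1))
    _ = 2 ^ (k - 1) * (k - 1).factorial * d.choose (k - 1) := by
        rw [Nat.descFactorial_eq_factorial_mul_choose, mul_assoc]

/-- sums of powers of large degrees -/
theorem sum_pow_le {k : ℕ} (hk : 4 ≤ k) (H : Finset V) (hH : ∀ x ∈ H, 2 * k ≤ dg T x) :
    ∑ x ∈ H, dg T x ^ (k - 1) ≤ 2 ^ (k - 1) * (k - 1).factorial * (stars T k).card := by
  calc ∑ x ∈ H, dg T x ^ (k - 1) ≤
        ∑ x ∈ H, 2 ^ (k - 1) * (k - 1).factorial * (dg T x).choose (k - 1) :=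
        sum_le_sum fun x hx => pow_le_choose (hH x hx) hk
    _ = 2 ^ (k - 1) * (k - 1).factorial * ∑ x ∈ H, (dg T x).choose (k - 1) := by rw [mul_sum]
    _ ≤ 2 ^ (k - 1) * (k - 1).factorial * ∑ x, (dg T x).choose (k - 1) :=
        Nat.mul_le_mul_left _ (sum_le_sum_of_subset (subset_univ _))
    _ ≤ _ := Nat.mul_le_mul_left _ (star_card hT (by omega))

end tree

end Run7.h690.TP
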