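import Pool.Agent.Run7.h690.TP.Lim

/-!
# Limit profiles of trees: vanishing path density forces star density one (MP_b90d6a_co, Q1)
-/

set_option autoImplicit false

namespace Pool.Agent.Results.MP_b90d6a_co.PathDensityZero

open Filter Topology Run7.h690.TP

/-- Trees on the vertex set `{0, …, k-1}`, up to isomorphism. -/
def isoSetoid (k : ℕ) : Setoid {S : SimpleGraph (Fin k) // S.IsTree} where
  r S S' := Nonempty (S.1 ≃g S'.1)
  iseqv :=
    { refl := fun _ => ⟨SimpleGraph.Iso.refl⟩
      symm := fun ⟨e⟩ => ⟨e.symm⟩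
      trans := fun ⟨e⟩ ⟨f⟩ => ⟨e.trans f⟩ }

/-- The isomorphism types of trees on `k` vertices. -/
def TreeType (k : ℕ) : Type := Quotient (isoSetoid k)

/-- The isomorphism type of a tree on `{0, …, k-1}`. -/
def TreeType.mk {k : ℕ} (S : SimpleGraph (Fin k)) (hS : S.IsTree) : TreeType k :=
  Quotient.mk (isoSetoid k) ⟨S, hS⟩

instance (k : ℕ) : Finite (TreeType k) := inferInstanceAs (Finite (Quotient (isoSetoid k)))

noncomputable instance (k : ℕ) : Fintype (TreeType k) := Fintype.ofFinite _

/-- The type of the path on `k` vertices. -/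
def pathType (k : ℕ) (hk : 1 ≤ k) : TreeType k :=
  TreeType.mk (SimpleGraph.pathGraph k) (isTree_pathGraph hk)

/-- The type of the star `K_{1,k-1}` on `k` vertices. -/
def starType (k : ℕ) (hk : 1 ≤ k) : TreeType k :=
  TreeType.mk (SimpleGraph.starGraph ⟨0, hk⟩) (SimpleGraph.isTree_starGraph _)

/-- `c(τ, T)`: the number of vertex sets `U` of `T` such that `T[U]` is a tree of type `τ`. -/
noncomputable def copies {k n : ℕ} (τ : TreeType k) (T : SimpleGraph (Fin n)) : ℕ :=
  Nat.card {U : Finset (Fin n) // ∃ (S : SimpleGraph (Fin k)) (hS : S.IsTree),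
    TreeType.mk S hS = τ ∧ Nonempty (T.induce (U : Set (Fin n)) ≃g S)}

/-- `Z_k(T)`, the sum of the numbers of copies over all types of trees on `k` vertices. -/
noncomputable def Z (k : ℕ) {n : ℕ} (T : SimpleGraph (Fin n)) : ℕ := ∑ τ : TreeType k, copies τ T

/-- The `k`-profile of `T`. -/
noncomputable def profile (k : ℕ) {n : ℕ} (T : SimpleGraph (Fin n)) (τ : TreeType k) : ℝ :=
  (copies τ T : ℝ) / (Z k T : ℝ)

/-- The limit set `Δ(k)` of the `k`-profiles of trees whose number of vertices tends to infinity. -/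
def limitSet (k : ℕ) : Set (TreeType k → ℝ) :=
  {p | ∃ (N : ℕ → ℕ) (T : ∀ n, SimpleGraph (Fin (N n))), (∀ n, (T n).IsTree) ∧
    Tendsto N atTop atTop ∧ Tendsto (fun n => profile k (T n)) atTop (𝓝 p)}

/-! ### Proof -/

/-- the copies, as a finite set -/
noncomputable def cop {k n : ℕ} (τ : TreeType k) (T : SimpleGraph (Fin n)) :
    Finset (Finset (Fin n)) :=
  (Set.toFinite {U : Finset (Fin n) | ∃ (S : SimpleGraph (Fin k)) (hS : S.IsTree),
    TreeType.mk S hS = τ ∧ Nonempty (T.induce (U : Set (Fin n)) ≃g S)}).toFinset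

theorem mem_cop {k n : ℕ} {τ : TreeType k} {T : SimpleGraph (Fin n)} {U : Finset (Fin n)} :
    U ∈ cop τ T ↔ ∃ (S : SimpleGraph (Fin k)) (hS : S.IsTree),
      TreeType.mk S hS = τ ∧ Nonempty (T.induce (U : Set (Fin n)) ≃g S) := by
  rw [cop, Set.Finite.mem_toFinset]
  exact Iff.rfl

theorem copies_cop {k n : ℕ} (τ : TreeType k) (T : SimpleGraph (Fin n)) :
    copies τ T = (cop τ T).card := by
  rw [copies, cop, ← Nat.card_eq_card_finite_toFinset]
  rfl

theorem mem_cop_mk {k n : ℕ} (T : SimpleGraph (Fin n)) (S : SimpleGraph (Fin k)) (hS : S.IsTree)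
    (U : Finset (Fin n)) :
    U ∈ cop (TreeType.mk S hS) T ↔ Nonempty (T.induce (U : Set (Fin n)) ≃g S) := by
  rw [mem_cop]
  constructor
  · rintro ⟨S', hS', h1, ⟨e⟩⟩
    obtain ⟨f⟩ := Quotient.exact h1
    exact ⟨e.trans f⟩
  · intro h1
    exact ⟨S, hS, rfl, h1⟩

theorem conn_eq {k n : ℕ} {T : SimpleGraph (Fin n)} (hT : T.IsTree) (U : Finset (Fin n)) :
    U ∈ conn T k ↔ ∃ τ : TreeType k, U ∈ cop τ T := by
  rw [mem_conn]
  constructor
  · rintro ⟨h2, h3⟩
    have e : Fin k ≃ (U : Set (Fin n)) :=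
      ((Fin.castOrderIso h2.symm).toEquiv.trans U.equivFin.symm).trans (Equiv.refl _)
    have e2 : (T.induce (U : Set (Fin n))).comap e ≃g T.induce (U : Set (Fin n)) :=
      SimpleGraph.Iso.comap e _
    have hS : ((T.induce (U : Set (Fin n))).comap e).IsTree := by
      rw [e2.isTree_iff]
      exact ⟨h3, hT.isAcyclic.induce _⟩
    exact ⟨TreeType.mk _ hS, (mem_cop_mk T _ hS U).2 ⟨e2.symm⟩⟩
  · rintro ⟨τ, h2⟩
    rw [mem_cop] at h2
    obtain ⟨S, hS, -, h3⟩ := h2
    have h4 := card_of_iso h3
    rw [Fintype.card_fin] at h4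
    obtain ⟨e⟩ := h3
    exact ⟨h4, e.connected_iff.2 hS.connected⟩

theorem Z_eq {k n : ℕ} {T : SimpleGraph (Fin n)} (hT : T.IsTree) :
    Z k T = (conn T k).card := by
  have h1 : (conn T k) = (Finset.univ : Finset (TreeType k)).biUnion fun τ => cop τ T := by
    ext U
    rw [Finset.mem_biUnion, conn_eq hT]
    exact ⟨fun ⟨τ, h⟩ => ⟨τ, Finset.mem_univ _, h⟩, fun ⟨τ, _, h⟩ => ⟨τ, h⟩⟩
  rw [h1, Finset.card_biUnion]
  · rw [Z]
    exact Finset.sum_congr rfl fun τ _ => copies_cop τ T
  · intro τ _ τ' _ hne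
    rw [Function.onFun, Finset.disjoint_left]
    intro U hU hU'
    rw [mem_cop] at hU hU'
    obtain ⟨S, hS, h2, ⟨e⟩⟩ := hU
    obtain ⟨S', hS', h2', ⟨e'⟩⟩ := hU'
    apply hne
    rw [← h2, ← h2']
    exact Quotient.sound ⟨e.symm.trans e'⟩

theorem copies_path {k n : ℕ} (hk : 1 ≤ k) (T : SimpleGraph (Fin n)) :
    copies (pathType k hk) T = (paths T k).card := by
  rw [copies_cop]
  congr 1
  ext U
  rw [pathType, mem_cop_mk, mem_paths]

theorem copies_star {k n : ℕ} (hk : 1 ≤ k) {T : SimpleGraph (Fin n)} (hT : T.IsTree) :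
    copies (starType k hk) T = (stars T k).card := by
  rw [copies_cop]
  congr 1
  ext U
  rw [starType, mem_cop_mk, mem_stars_iff hT ⟨0, hk⟩ U]

/-- **Q1 of MP_b90d6a_co, affirmative answer.**  For every `k ≥ 4`, if a point of the limit set of
the `k`-profiles of trees has path density zero then its star density is one. -/
theorem result (k : ℕ) (hk : 4 ≤ k) (p : TreeType k → ℝ) (hp : p ∈ limitSet k)
    (h0 : p (pathType k (by omega)) = 0) : p (starType k (by omega)) = 1 := by
  obtain ⟨N, T, hT, hN, hlim⟩ := hp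
  rw [tendsto_pi_nhds] at hlim
  have hP := hlim (pathType k (by omega))
  have hS := hlim (starType k (by omega))
  rw [h0] at hP
  set a : ℕ → ℝ := fun n => profile k (T n) (pathType k (by omega)) with ha
  set b : ℕ → ℝ := fun n => profile k (T n) (starType k (by omega)) with hb
  have hle : ∀ n, b n ≤ 1 := by
    intro n
    simp only [hb, profile]
    apply div_le_one_of_le₀ _ (Nat.cast_nonneg _)
    rw [copies_star _ (hT n), Z_eq (hT n)]
    exact_mod_cast Finset.card_le_card (stars_subset (T n) k)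
  have h1 : p (starType k (by omega)) ≤ 1 := le_of_tendsto' hS hle
  refine le_antisymm h1 ?_
  -- the lower bound, up to `1 / q`
  have key : ∀ q : ℕ, 0 < q → (q : ℝ) * (1 - p (starType k (by omega))) ≤ 1 := by
    intro q hq
    obtain ⟨C, n₀, hmain⟩ := main k q hk hq
    have hev : ∀ᶠ n in atTop, (q : ℝ) * (1 - b n) ≤ 1 + C * a n := by
      filter_upwards [hN.eventually_ge_atTop (n₀ + k)] with n hn
      have hm := hmain (Fin (N n)) (T n) (hT n) (by rw [Fintype.card_fin]; omega)
      have hz : 0 < (conn (T n) k).card := by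
        rw [Finset.card_pos]
        exact exists_conn (hT n) (by omega) (by rw [Fintype.card_fin]; omega)
      have hz' : (0 : ℝ) < ((conn (T n) k).card : ℝ) := by exact_mod_cast hz
      have hsum : (conn (T n) k).card = (stars (T n) k).card + (nonst (T n) k).card :=
        card_split (T n) k
      have e1 : a n = ((paths (T n) k).card : ℝ) / ((conn (T n) k).card : ℝ) := by
        simp only [ha, profile]
        rw [copies_path, Z_eq (hT n)]
      have e2 : b n = ((stars (T n) k).card : ℝ) / ((conn (T n) k).card : ℝ) := by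
        simp only [hb, profile]
        rw [copies_star _ (hT n), Z_eq (hT n)]
      have e3 : 1 - b n = ((nonst (T n) k).card : ℝ) / ((conn (T n) k).card : ℝ) := by
        rw [e2, hsum]
        push_cast
        have : ((stars (T n) k).card : ℝ) + ((nonst (T n) k).card : ℝ) ≠ 0 := by
          rw [hsum] at hz'
          push_cast at hz'
          exact hz'.ne'
        field_simp
        ring
      have hm' : (q : ℝ) * ((nonst (T n) k).card : ℝ) ≤
          ((stars (T n) k).card : ℝ) + C * ((paths (T n) k).card : ℝ) := by exact_mod_cast hm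
      have e4 : (q : ℝ) * (1 - b n) ≤ b n + C * a n := by
        rw [e3, e1, e2]
        rw [← mul_div_assoc, ← mul_div_assoc, ← add_div]
        exact div_le_div_of_nonneg_right hm' hz'.le
      linarith [hle n]
    have hl : Tendsto (fun n => (q : ℝ) * (1 - b n)) atTop
        (𝓝 ((q : ℝ) * (1 - p (starType k (by omega))))) :=
      (tendsto_const_nhds.sub hS).const_mul _
    have hr : Tendsto (fun n => 1 + (C : ℝ) * a n) atTop (𝓝 (1 + C * 0)) :=
      tendsto_const_nhds.add (hP.const_mul _)
    have := le_of_tendsto_of_tendsto hl hr hev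
    linarith
  by_contra hcon
  push Not at hcon
  obtain ⟨q, hq⟩ := exists_nat_gt (1 / (1 - p (starType k (by omega))))
  have hpos : 0 < 1 - p (starType k (by omega)) := by linarith
  have hq0 : 0 < q := by
    have : (0 : ℝ) < q := lt_trans (by positivity) hq
    exact_mod_cast this
  have := key q hq0
  rw [div_lt_iff₀ hpos] at hq
  linarith

end Pool.Agent.Results.MP_b90d6a_co.PathDensityZero
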